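import Pool.Agent.L0h7.KN.Stm

/-! Module LIMG of project KN: the limit of a sequence of marked groups -/

set_option autoImplicit false

open CategoryTheory Filter

noncomputable section

namespace Pool.Agent.L0h81.KN

open Pool.Agent.L0h7.KN

/-- the normal subgroup of the limit -/
def Nu {n : ℕ} (u : Ultrafilter ℕ) (G : ℕ → GrpCat.{0}) (f : ∀ k, fm n ⟶ G k) :
    Subgroup (FreeGroup (Fin n)) where
  carrier := {w | ∀ᶠ k in (u : Filter ℕ), (f k).hom w = 1}
  mul_mem' := by
    intro a b ha hb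
    filter_upwards [ha, hb] with k h1 h2
    rw [map_mul, h1, h2, mul_one]
  one_mem' := Eventually.of_forall fun k => map_one _
  inv_mem' := by
    intro a ha
    filter_upwards [ha] with k h1
    rw [map_inv, h1, inv_one]

theorem mem_Nu {n : ℕ} (u : Ultrafilter ℕ) (G : ℕ → GrpCat.{0}) (f : ∀ k, fm n ⟶ G k)
    (w : FreeGroup (Fin n)) : w ∈ Nu u G f ↔ ∀ᶠ k in (u : Filter ℕ), (f k).hom w = 1 := Iff.rfl

instance {n : ℕ} (u : Ultrafilter ℕ) (G : ℕ → GrpCat.{0}) (f : ∀ k, fm n ⟶ G k) :
    (Nu u G f).Normal where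
  conj_mem := by
    intro a ha g
    rw [mem_Nu] at ha ⊢
    filter_upwards [ha] with k h1
    rw [map_mul, map_mul, h1, mul_one, map_inv, mul_inv_cancel]

theorem t_LIMG : S_LIMG := by
  classical
  intro C n u hu G f hC hT
  have hge : ∀ K : ℕ, ∀ᶠ k in (u : Filter ℕ), K ≤ k := fun K => hu (eventually_ge_atTop K)
  refine ⟨GrpCat.of (FreeGroup (Fin n) ⧸ Nu u G f), GrpCat.ofHom (QuotientGroup.mk' (Nu u G f)),
    ?_, ?_, ?_, ?_⟩
  · exact QuotientGroup.mk'_surjective _
  · intro g k hk hg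
    obtain ⟨w, rfl⟩ := QuotientGroup.mk'_surjective (Nu u G f) g
    have h1 : QuotientGroup.mk' (Nu u G f) (w ^ k) = 1 := by rw [map_pow]; exact hg
    have h2 : w ^ k ∈ Nu u G f := (QuotientGroup.eq_one_iff _).1 h1
    have h3 : w ∈ Nu u G f := by
      rw [mem_Nu] at h2 ⊢
      filter_upwards [h2, hge w.toWord.length, hge k] with j e1 e2 e3
      rw [map_pow] at e1
      exact hT j w e2 k hk e3 e1
    exact (QuotientGroup.eq_one_iff _).2 h3
  · intro E
    obtain ⟨σ, hσ⟩ : ∃ σ : (FreeGroup (Fin n) ⧸ Nu u G f) → FreeGroup (Fin n),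
        ∀ g, QuotientGroup.mk' (Nu u G f) (σ g) = g :=
      ⟨_, Function.surjInv_eq (QuotientGroup.mk'_surjective (Nu u G f))⟩
    have h1 : ∀ᶠ k in (u : Filter ℕ), ∀ x ∈ E, ∀ y ∈ E,
        (f k).hom (σ (x * y)) = (f k).hom (σ x) * (f k).hom (σ y) := by
      rw [eventually_all_finset]
      intro x _
      rw [eventually_all_finset]
      intro y _
      have h2 : (σ (x * y))⁻¹ * (σ x * σ y) ∈ Nu u G f := by
        rw [← QuotientGroup.eq_one_iff]
        have h3 : QuotientGroup.mk' (Nu u G f) ((σ (x * y))⁻¹ * (σ x * σ y)) = 1 := by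
          rw [map_mul, map_inv, map_mul, hσ, hσ, hσ, inv_mul_cancel]
        exact h3
      rw [mem_Nu] at h2
      filter_upwards [h2] with k h3
      rw [map_mul, map_inv, map_mul, inv_mul_eq_one] at h3
      exact h3
    have h2 : ∀ᶠ k in (u : Filter ℕ), ∀ x ∈ E, ∀ y ∈ E,
        (f k).hom (σ x) = (f k).hom (σ y) → x = y := by
      rw [eventually_all_finset]
      intro x _
      rw [eventually_all_finset]
      intro y _
      by_cases hxy : x = y
      · exact Eventually.of_forall fun _ _ => hxy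
      · have h3 : (σ x)⁻¹ * σ y ∉ Nu u G f := by
          rw [← QuotientGroup.eq_one_iff]
          intro h4
          apply hxy
          have h5 : QuotientGroup.mk' (Nu u G f) ((σ x)⁻¹ * σ y) = 1 := h4
          rw [map_mul, map_inv, hσ, hσ, inv_mul_eq_one] at h5
          exact h5
        rw [mem_Nu, ← Ultrafilter.eventually_not] at h3
        filter_upwards [h3] with k h4 h5
        exact absurd (by rw [map_mul, map_inv, h5, inv_mul_cancel]) h4
    obtain ⟨k, e1, e2⟩ := (h1.and h2).exists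
    exact ⟨G k, fun x => (f k).hom (σ x), hC k, e1, e2⟩
  · intro w
    exact QuotientGroup.eq_one_iff w

end Pool.Agent.L0h81.KN
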